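import Pool.Agent.Helper74.FN.St.Stubs

/-!
# FN-C2: all stages of the recursion
-/

set_option autoImplicit false

namespace Pool.Agent.Helper29.FN

open Finset Filter
open Pool.Agent.Helper53.WR
open Pool.Agent.Helper48.FB (win crossF Cs Fs dens)
open Pool.Agent.Helper53.FM (BCov blockMax)
open Pool.Agent.Helper74.FN

/-- **FN-C2** (all stages; uses A2, Z9, C1). -/
theorem ntower_pieces {a u b w r c : ℕ → ℕ} (h : NTow a u b w r c) (f g : ℕ → ℕ → ℕ)
    (T : ℕ → Finset ℕ) (T' B : ℕ → ℕ → Finset ℕ)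
    (hT : ∀ k, NTop (laT u k) (Fs u k) (w k) (c k) (f k) (g k) (T k) (T' k) (B k)) :
    ∃ (q : ℕ → ℕ) (S A : ℕ → Finset ℕ) (A' : ℕ → ℕ → Finset ℕ),
      (∀ i, (q i).Prime ∧ 2 ^ (a i) < q i ∧ q i ≤ 2 ^ (a i + 1)) ∧
      (∀ k, S (k + 1) = S k ∪ A k) ∧ (∀ k, NI a u b r c q k (S k)) ∧
      (∀ n, repF (S 0) n ≤ Cs * a 0) ∧
      (∀ k, NW a u b w r c (f k) (g k) q (B k) k (S k) (A k) (A' k)) := by
  classical
  obtain ⟨q, hq⟩ := texists_primes a
  obtain ⟨O0, hO0, hO0r⟩ := Pool.Agent.Helper74.FN.St.ni_zero h q hq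
  have hex : ∀ (k : ℕ) (O : Finset ℕ), ∃ P : Finset ℕ × (ℕ → Finset ℕ),
      NI a u b r c q k O → NW a u b w r c (f k) (g k) q (B k) k O P.1 P.2 := by
    intro k O
    by_cases hO : NI a u b r c q k O
    · obtain ⟨A, A', hA⟩ :=
        Pool.Agent.Helper74.FN.St.ntower_world h (f k) (g k) k q hq (T k) O (T' k) (B k) (hT k) hO
      exact ⟨(A, A'), fun _ => hA⟩
    · exact ⟨(∅, fun _ => ∅), fun h' => absurd h' hO⟩
  choose W hW using hex
  let S : ℕ → Finset ℕ := fun s => Nat.rec O0 (fun s O => O ∪ (W s O).1) s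
  have hS0 : S 0 = O0 := rfl
  have hS1 : ∀ s, S (s + 1) = S s ∪ (W s (S s)).1 := fun s => rfl
  have hinv : ∀ s, NI a u b r c q s (S s) := by
    intro s
    induction s with
    | zero => rw [hS0]; exact hO0
    | succ s ih =>
      rw [hS1]
      exact Pool.Agent.Helper74.FN.St.ni_step h (f s) (g s) s q hq (B s) (S s) _ _ ih (hW s _ ih)
  exact ⟨q, S, fun s => (W s (S s)).1, fun s => (W s (S s)).2,
    hq, hS1, hinv, fun n => by rw [hS0]; exact hO0r n, fun s => hW s _ (hinv s)⟩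

end Pool.Agent.Helper29.FN
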