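import Pool.Agent.Helper3.ThinGamma

/-!
# FN-Z2: a good set with few points in each column
-/

set_option autoImplicit false

namespace Pool.Agent.Helper29.FN

open Finset
open Pool.Agent.Helper3.Thin

/-- a union of parabolas has at most `T.card` points in each column -/
theorem col_parab {F : Type*} [Field F] [Fintype F] [DecidableEq F] (T : Finset F) (x : F) :
    ((parab T).filter (fun p => p.1 = x)).card ≤ T.card := by
  refine (card_le_card (t := T.image (fun c => (x, c * x ^ 2))) ?_).trans card_image_le
  intro p hp
  obtain ⟨hp1, hp2⟩ := mem_filter.1 hp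
  obtain ⟨c, hc, h⟩ := (mem_parab T p).1 hp1
  refine mem_image.2 ⟨c, hc, ?_⟩
  rw [← hp2, ← h]

/-- **FN-Z2** (a good set with few points in each column; the set of `exists_goodSet` is
`parab T` with `T.card ≤ 3`). -/
theorem exists_goodSet_col (q : ℕ) [Fact q.Prime] (hq : 16 < q) :
    ∃ G : Finset (ZMod q × ZMod q), GoodSet G ∧
      ∀ x : ZMod q, (G.filter (fun p => p.1 = x)).card ≤ 3 := by
  classical
  obtain ⟨g, hg, h1, h2, h3⟩ := exists_nonsquare_avoid q hq
  have hne : ∀ m : ℕ, 0 < m → m < q → (m : ZMod q) ≠ 0 := by
    intro m hm hmq h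
    rw [ZMod.natCast_eq_zero_iff] at h
    exact absurd (Nat.le_of_dvd hm h) (by omega)
  have n2 : (2 : ZMod q) ≠ 0 := by exact_mod_cast hne 2 (by norm_num) (by omega)
  have hg0 : g ≠ 0 := by
    rintro rfl
    exact hg (IsSquare.zero)
  set T : Finset (ZMod q) := {2, 1 + g, (1 + g) / g} with hT
  have hTcard : T.card ≤ 3 := card_le_three
  have hsum : ∀ c ∈ T, ∀ d ∈ T, c + d ≠ 0 := by
    have a1 : (2 : ZMod q) + 2 ≠ 0 := by
      have := hne 4 (by norm_num) (by omega)
      intro h; apply this; push_cast; linear_combination h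
    have a2 : (2 : ZMod q) + (1 + g) ≠ 0 := by
      intro h; apply h2; linear_combination h
    have a3 : (2 : ZMod q) + (1 + g) / g ≠ 0 := by
      intro h; apply h3; field_simp at h; linear_combination h
    have a4 : (1 + g) + (1 + g) ≠ 0 := by
      intro h
      have : 2 * (1 + g) = 0 := by linear_combination h
      rcases mul_eq_zero.1 this with h | h
      · exact n2 h
      · exact h1 h
    have a5 : (1 + g) + (1 + g) / g ≠ 0 := by
      intro h
      field_simp at h
      have : (1 + g) * (1 + g) = 0 := by linear_combination h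
      rcases mul_eq_zero.1 this with h | h
      · exact h1 h
      · exact h1 h
    have a6 : (1 + g) / g + (1 + g) / g ≠ 0 := by
      intro h
      field_simp at h
      have : 2 * (1 + g) = 0 := by linear_combination h
      rcases mul_eq_zero.1 this with h | h
      · exact n2 h
      · exact h1 h
    intro c hc d hd
    rw [hT] at hc hd
    simp only [mem_insert, mem_singleton] at hc hd
    rcases hc with rfl | rfl | rfl <;> rcases hd with rfl | rfl | rfl
    · exact a1
    · exact a2
    · exact a3
    · rw [add_comm]; exact a2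
    · exact a4
    · exact a5
    · rw [add_comm]; exact a3
    · rw [add_comm]; exact a5
    · exact a6
  have hdbl : ∀ c ∈ T, 2 * c ≠ 0 := by
    intro c hc h
    exact hsum c hc c hc (by linear_combination h)
  refine ⟨parab T, ⟨?_, ?_, sum_le_aux T hTcard hsum, diff_le_aux T hTcard hdbl⟩,
    fun x => (col_parab T x).trans hTcard⟩
  · refine (card_parab_le T).trans ?_
    exact Nat.mul_le_mul_right _ hTcard
  · intro z
    by_cases hD : IsSquare (z.2 - z.1 ^ 2)
    · obtain ⟨d, hd⟩ := hD
      refine ⟨((z.1 + d) / 2, 2 * ((z.1 + d) / 2) ^ 2), ?_,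
        ((z.1 - d) / 2, 2 * ((z.1 - d) / 2) ^ 2), ?_, ?_⟩
      · rw [mem_parab]
        exact ⟨2, by rw [hT]; simp, rfl⟩
      · rw [mem_parab]
        exact ⟨2, by rw [hT]; simp, rfl⟩
      · refine Prod.ext ?_ ?_
        · simp only [Prod.fst_add]
          field_simp
          ring
        · simp only [Prod.snd_add]
          field_simp
          linear_combination -2 * hd
    · have hDg : IsSquare (g * (z.2 - z.1 ^ 2)) := by
        have hD0 : z.2 - z.1 ^ 2 ≠ 0 := by
          intro h; apply hD; rw [h]; exact IsSquare.zero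
        rw [← quadraticChar_neg_one_iff_not_isSquare] at hD hg
        rw [← quadraticChar_one_iff_isSquare (mul_ne_zero hg0 hD0), map_mul, hD, hg]
        norm_num
      obtain ⟨e, he⟩ := hDg
      refine ⟨((z.1 + e) / (1 + g), (1 + g) * ((z.1 + e) / (1 + g)) ^ 2), ?_,
        ((g * z.1 - e) / (1 + g), ((1 + g) / g) * ((g * z.1 - e) / (1 + g)) ^ 2), ?_, ?_⟩
      · rw [mem_parab]
        exact ⟨1 + g, by rw [hT]; simp, rfl⟩
      · rw [mem_parab]
        exact ⟨(1 + g) / g, by rw [hT]; simp, rfl⟩
      · refine Prod.ext ?_ ?_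
        · simp only [Prod.fst_add]
          field_simp
          ring
        · simp only [Prod.snd_add]
          field_simp
          linear_combination (-1 - g) * he

end Pool.Agent.Helper29.FN
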